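import Mathlib

/-!
# MP_640417_ag, Zo, module Null (100 lines): Poincaré recurrence

For `γ ∈ S` let `W = {h | h ∈ Z ∧ ¬ ∀ n : ℕ, γ ^ n * h ∈ Z}`, a Borel set (`Z` is closed, `h ↦ γ ^ n * h` is continuous). Left multiplication
by `γ` preserves `ν` (`measurePreserving_mul_left`), and `ν` is finite (`Γ` is compact), so it is conservative
(`MeasureTheory.MeasurePreserving.conservative`), and almost every `h ∈ W` returns to `W`, so to `Z`, infinitely often
(`MeasureTheory.Conservative.ae_mem_imp_frequently_image_mem`; the `n`-th iterate of `h ↦ γ * h` is `h ↦ γ ^ n * h`, `smul_iterate` or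
induction). Then `{n | γ ^ n * h ∈ Z}` is infinite, so by `hfin` all `γ ^ n * h` are in `Z`, a contradiction. So `ν W = 0`. The set in
the theorem is contained in the union of these `W` over the countable set `S` (`measure_biUnion_null_iff`; use `n = 1`).
-/

set_option autoImplicit false

namespace Pool.Agent.Lib.MP_640417_ag.Zo

open MeasureTheory Filter Topology

theorem null_of_rec {Γ : Type} [Group Γ] [TopologicalSpace Γ] [IsTopologicalGroup Γ]
    [CompactSpace Γ] [MeasurableSpace Γ] [BorelSpace Γ] (ν : Measure Γ) [ν.IsHaarMeasure]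
    (Z : Set Γ) (hZ : IsClosed Z) (S : Set Γ) (hS : S.Countable)
    (hfin : ∀ γ ∈ S, ∀ h, (∀ n : ℕ, γ ^ n * h ∈ Z) ∨ {n : ℕ | γ ^ n * h ∈ Z}.Finite) :
    ν {h | h ∈ Z ∧ ¬ ∀ γ ∈ S, γ * h ∈ Z} = 0 := by
  classical
  have hcont : ∀ (γ : Γ) (n : ℕ), Continuous fun h : Γ => γ ^ n * h :=
    fun γ n => continuous_const.mul continuous_id
  have hZm : MeasurableSet Z := hZ.measurableSet
  have hW : ∀ γ ∈ S, ν {h | h ∈ Z ∧ ¬ ∀ n : ℕ, γ ^ n * h ∈ Z} = 0 := by
    intro γ hγ
    set W : Set Γ := {h | h ∈ Z ∧ ¬ ∀ n : ℕ, γ ^ n * h ∈ Z} with hWdef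
    have hWm : MeasurableSet W := by
      have h1 : W = Z ∩ (⋂ n : ℕ, (fun h => γ ^ n * h) ⁻¹' Z)ᶜ := by
        ext h
        simp only [hWdef, Set.mem_ofPred_eq, Set.mem_inter_iff, Set.mem_compl_iff, Set.mem_iInter,
          Set.mem_preimage]
      rw [h1]
      exact hZm.inter
        (MeasurableSet.iInter fun n => (hZ.preimage (hcont γ n)).measurableSet).compl
    have hcons : Conservative (fun h => γ * h) ν := (measurePreserving_mul_left ν γ).conservative
    have hae := hcons.ae_mem_imp_frequently_image_mem hWm.nullMeasurableSet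
    rw [measure_eq_zero_iff_ae_notMem]
    filter_upwards [hae] with x hx hxW
    have h1 := hx hxW
    have h2 : ∃ᶠ n in atTop, γ ^ n * x ∈ Z := by
      refine h1.mono fun n hn => ?_
      have h3 : (fun h => γ * h)^[n] x = γ ^ n * x := by
        have h4 := congrFun (mul_left_iterate γ n) x
        exact h4
      rw [h3] at hn
      exact hn.1
    rcases hfin γ hγ x with h3 | h3
    · exact hxW.2 h3
    · exact (Nat.frequently_atTop_iff_infinite.1 h2) h3
  refine measure_mono_null ?_ ((measure_biUnion_null_iff hS).2 hW)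
  rintro h ⟨h1, h2⟩
  push Not at h2
  obtain ⟨γ, hγ, h3⟩ := h2
  refine Set.mem_biUnion hγ ⟨h1, fun h4 => h3 ?_⟩
  have h5 := h4 1
  rwa [pow_one] at h5

end Pool.Agent.Lib.MP_640417_ag.Zo
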