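import Pool.Agent.Lib.MP_640417_ag.Zo.Strass
import Pool.Agent.Lib.MP_640417_ag.Zo.Null

/-!
# MP_640417_ag, Zo, module Dense (120 lines): a regular function is zero or almost nowhere zero

* `exists_countable`: `T = ρ.M '' U` is a subset of a second countable metrizable space (`Matrix I I F = I → I → F`), so the subtype `T` has a
  countable dense subset (`TopologicalSpace.exists_countable_dense`); choose a preimage in `U` for each of its elements, this gives
  `S`. Every point of `T` is the limit of a sequence of elements of the dense subset (`mem_closure_iff_seq_limit`).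
* `null_or_zero`: `Z = {γ | f γ = 0}` is closed. For `γ ∈ U` and `h` the sequence `n ↦ f (γ^n * h)` is given by a power series, so it is zero or
  has finitely many zeros (`rp_zeros`, `Zo/Strass.lean`). Take `S` from `exists_countable` for `U`; by `null_of_rec` the set
  `{h | h ∈ Z ∧ ¬ ∀ γ ∈ S, γ * h ∈ Z}` is null. If `ν {γ | γ ∈ U ∧ f γ = 0} ≠ 0` there is `h ∈ U ∩ Z` with `γ * h ∈ Z` for all `γ ∈ S`
  (otherwise the set is contained in the null set). Let `g ∈ U`, `γ = g * h⁻¹ ∈ U`; choose `u n ∈ S` with `M (u n) → M γ`; then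
  `M (u n * h) = M (u n) * M h → M (γ * h) = M g`, so `0 = f (u n * h) → f g` (`IsReg.seq`), and `f g = 0`.
-/

set_option autoImplicit false

namespace Pool.Agent.Lib.MP_640417_ag.Zo

open MeasureTheory Filter Topology Matrix Pool.Agent.Lib.MP_640417_ag.Glob

variable {F : Type} [NontriviallyNormedField F] {I : Type} [Fintype I] [DecidableEq I]
  {Γ : Type} [Group Γ] [TopologicalSpace Γ] (ρ : MRep Γ F I)

theorem exists_countable [SecondCountableTopology F] (U : Set Γ) :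
    ∃ S : Set Γ, S ⊆ U ∧ S.Countable ∧ ∀ γ ∈ U, ∃ u : ℕ → Γ, (∀ n, u n ∈ S) ∧
      Tendsto (fun n => ρ.M (u n)) atTop (𝓝 (ρ.M γ)) := by
  have : SecondCountableTopology (Matrix I I F) :=
    inferInstanceAs (SecondCountableTopology (I → I → F))
  obtain ⟨c, hc, hd⟩ := TopologicalSpace.exists_countable_dense (ρ.M '' U : Set (Matrix I I F))
  have hg : ∀ t : (ρ.M '' U : Set (Matrix I I F)), ∃ γ, γ ∈ U ∧ ρ.M γ = t.1 := fun t => t.2
  choose g hgU hgM using hg
  refine ⟨g '' c, ?_, hc.image g, ?_⟩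
  · rintro _ ⟨t, _, rfl⟩
    exact hgU t
  · intro γ hγ
    have ht : (⟨ρ.M γ, γ, hγ, rfl⟩ : (ρ.M '' U : Set (Matrix I I F))) ∈ closure c := hd _
    obtain ⟨x, hx, hlim⟩ := mem_closure_iff_seq_limit.mp ht
    refine ⟨fun n => g (x n), fun n => ⟨x n, hx n, rfl⟩, ?_⟩
    have h1 := (continuous_subtype_val.tendsto _).comp hlim
    refine h1.congr fun n => ?_
    exact (hgM (x n)).symm

theorem null_or_zero [IsUltrametricDist F] [CompleteSpace F] [CharZero F]
    [SecondCountableTopology F] [IsTopologicalGroup Γ] [CompactSpace Γ] [MeasurableSpace Γ]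
    [BorelSpace Γ] (ν : Measure Γ) [ν.IsHaarMeasure] (U : Subgroup Γ) {f : Γ → F}
    (hf : IsReg ρ (U : Set Γ) f) : ν {γ | γ ∈ U ∧ f γ = 0} = 0 ∨ ∀ γ ∈ U, f γ = 0 := by
  by_cases hν : ν {γ | γ ∈ U ∧ f γ = 0} = 0
  · exact Or.inl hν
  right
  obtain ⟨S, hSU, hSc, hS⟩ := exists_countable ρ (U : Set Γ)
  have hZ : IsClosed {γ : Γ | f γ = 0} := isClosed_eq hf.cont continuous_const
  have hfin : ∀ γ ∈ S, ∀ h, (∀ n : ℕ, γ ^ n * h ∈ {γ : Γ | f γ = 0}) ∨
      {n : ℕ | γ ^ n * h ∈ {γ : Γ | f γ = 0}}.Finite := by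
    intro γ hγ h
    by_cases hh : {n : ℕ | γ ^ n * h ∈ {γ : Γ | f γ = 0}}.Finite
    · exact Or.inr hh
    · left
      intro n
      exact rp_zeros (hf.rp γ (hSU hγ) h) hh n
  have hN := null_of_rec ν {γ : Γ | f γ = 0} hZ S hSc hfin
  have hex : ∃ h, h ∈ U ∧ f h = 0 ∧ ∀ γ ∈ S, f (γ * h) = 0 := by
    by_contra hcon
    push Not at hcon
    refine hν (measure_mono_null ?_ hN)
    rintro h ⟨hhU, hh0⟩
    obtain ⟨γ, hγ, hne⟩ := hcon h hhU hh0
    exact ⟨hh0, fun hall => hne (hall γ hγ)⟩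
  obtain ⟨h, hhU, hh0, hhS⟩ := hex
  intro g hg
  obtain ⟨u, hu, hlim⟩ := hS (g * h⁻¹) (U.mul_mem hg (U.inv_mem hhU))
  have h1 : Tendsto (fun n => ρ.M (u n * h)) atTop (𝓝 (ρ.M g)) := by
    have h2 : Tendsto (fun n => ρ.M (u n) * ρ.M h) atTop (𝓝 (ρ.M (g * h⁻¹) * ρ.M h)) :=
      hlim.mul tendsto_const_nhds
    have h3 : ρ.M (g * h⁻¹) * ρ.M h = ρ.M g := by
      rw [← map_mul, inv_mul_cancel_right]
    rw [h3] at h2
    refine h2.congr fun n => ?_
    rw [map_mul]
  have h4 := hf.seq _ _ h1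
  have h5 : Tendsto (fun n => f (u n * h)) atTop (𝓝 0) := by
    have : (fun n => f (u n * h)) = fun _ => (0 : F) := funext fun n => hhS _ (hu n)
    rw [this]
    exact tendsto_const_nhds
  exact tendsto_nhds_unique h4 h5

end Pool.Agent.Lib.MP_640417_ag.Zo
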