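import Pool.Agent.Lib.MP_640417_ag.Zo.Defs
import Pool.Agent.Lib.MP_640417_ag.Glob.Root
import Pool.Agent.Lib.MP_640417_ag.Glob.Norm

/-!
# MP_640417_ag, Zo, module Pow (200 lines): powers of matrices close to the identity

Let `E = T - 1`, `r = ‖l‖ ^ 2`, `b k = (E ^ k) i j`, `‖b k‖ ≤ ‖l‖ ^ (2 k)` (`Sm_mul`, induction). `T ^ n = ∑_{k ≤ n} choose n k • E ^ k`
(`add_pow` for the commuting `E`, `1`), and `choose n k = 0` for `k > n`. There are integers `s k m` (`m ≤ k`, zero for `m > k`) with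
`k! * choose n k = ∑_{m ≤ k} s k m * n ^ m` for all `n` (the coefficients of `descPochhammer ℤ k`: `descPochhammer_eval_eq_descFactorial`,
`Nat.descFactorial_eq_factorial_mul_choose`, `Polynomial.eval_eq_sum_range'`). `‖k!‖ ≥ ‖l‖ ^ k`: by `norm_nat` (`Glob/Root.lean`; look at its
statement: a lower bound for `‖j‖`) or directly: `‖(l : F) ^ k‖ ≤ ‖k!‖` since the exponent of `l` in `k!` is at most `k`
(`sub_one_mul_padicValNat_factorial` or `Nat.Prime.multiplicity_factorial`-type lemmas; write `k! = l ^ v * m`, `m` prime to `l`,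
`‖m‖ = 1`, `v ≤ k`). So `u k m = s k m * b k / k!` has `‖u k m‖ ≤ ‖l‖ ^ k`, and `u k m = 0` for `m > k`.
Coefficients: `c m = ∑' k, u k m`. They exist and `‖c m‖ ≤ ‖l‖ ^ m → 0` (only `k ≥ m` count). For every `n` the family
`(k, m) ↦ u k m * n ^ m` on `ℕ × ℕ` is summable (it is bounded by `‖l‖ ^ k` for `m ≤ k`, so it tends to zero along the cofinite filter;
`NonarchimedeanAddGroup.summable_of_tendsto_cofinite_zero`); summing first over `m` one gets `∑_k b k * choose n k = (T ^ n) i j`,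
summing first over `k` one gets `∑_m c m * n ^ m` (`Summable.tsum_comm`, `HasSum.prod_fiberwise`).
-/

set_option autoImplicit false

namespace Pool.Agent.Lib.MP_640417_ag.Zo

open Filter Topology Pool.Agent.Lib.MP_640417_ag.Glob

variable {F : Type} [NontriviallyNormedField F] [IsUltrametricDist F] [CompleteSpace F] [CharZero F]
  {I : Type} [Fintype I] [DecidableEq I]

omit [CompleteSpace F] [CharZero F] in
private theorem norm_cop (l : ℕ) [Fact l.Prime] (hl : ‖(l : F)‖ < 1) (m : ℕ) (hm : ¬ l ∣ m) :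
    1 ≤ ‖(m : F)‖ := by
  have hp : l.Prime := Fact.out
  have hcop : IsCoprime (m : ℤ) (l : ℤ) := by
    rw [Nat.isCoprime_iff_coprime]
    exact ((Nat.Prime.coprime_iff_not_dvd hp).2 hm).symm
  obtain ⟨u, w, huw⟩ := hcop
  have h1 : (u : F) * m + w * l = 1 := by exact_mod_cast congrArg (fun z : ℤ => (z : F)) huw
  have hu : ‖(u : F)‖ ≤ 1 := IsUltrametricDist.norm_intCast_le_one F u
  have hw : ‖(w : F)‖ ≤ 1 := IsUltrametricDist.norm_intCast_le_one F w
  by_contra hcon
  push Not at hcon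
  have h2 : ‖(u : F) * m‖ < 1 := by
    rw [norm_mul]
    nlinarith [norm_nonneg (m : F), norm_nonneg (u : F)]
  have h3 : ‖(w : F) * l‖ < 1 := by
    rw [norm_mul]
    nlinarith [norm_nonneg (l : F), norm_nonneg (w : F)]
  have h4 : ‖(u : F) * m + w * l‖ < 1 :=
    (IsUltrametricDist.norm_add_le_max _ _).trans_lt (max_lt h2 h3)
  rw [h1, norm_one] at h4
  exact lt_irrefl _ h4

omit [CompleteSpace F] [CharZero F] in
private theorem norm_fac (l : ℕ) [Fact l.Prime] (hl : ‖(l : F)‖ < 1) (k : ℕ) :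
    ‖(l : F)‖ ^ k ≤ ‖(k.factorial : F)‖ := by
  have hp : l.Prime := Fact.out
  have hv : padicValNat l k.factorial ≤ k := by
    have h1 := sub_one_mul_padicValNat_factorial (p := l) k
    have h2 : 1 ≤ l - 1 := by
      have := hp.two_le
      omega
    calc padicValNat l k.factorial = 1 * padicValNat l k.factorial := (one_mul _).symm
      _ ≤ (l - 1) * padicValNat l k.factorial := Nat.mul_le_mul_right _ h2
      _ = k - (l.digits k).sum := h1
      _ ≤ k := Nat.sub_le _ _
  obtain ⟨v, m, hm, hvm⟩ := Nat.exists_eq_pow_mul_and_not_dvd (Nat.factorial_ne_zero k) l hp.ne_one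
  have hvk : v ≤ k := by
    refine le_trans ?_ hv
    have h1 : l ^ v ∣ k.factorial := ⟨m, hvm⟩
    exact (padicValNat_dvd_iff_le (Nat.factorial_ne_zero k)).1 h1
  rw [hvm, Nat.cast_mul, Nat.cast_pow, norm_mul, norm_pow]
  calc ‖(l : F)‖ ^ k ≤ ‖(l : F)‖ ^ v := pow_le_pow_of_le_one (norm_nonneg _) hl.le hvk
    _ = ‖(l : F)‖ ^ v * 1 := (mul_one _).symm
    _ ≤ _ := mul_le_mul_of_nonneg_left (norm_cop l hl m hm) (by positivity)

omit [CompleteSpace F] [CharZero F] in
private theorem Sm_pow' {r : ℝ} (hr : 0 ≤ r) {x : Matrix I I F} (hx : Sm r x) (n : ℕ) :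
    Sm (r ^ n) (x ^ n) := by
  induction n with
  | zero => simpa using Sm_one
  | succ n ih =>
    rw [pow_succ, pow_succ]
    exact Sm_mul (by positivity) hr ih hx

omit [IsUltrametricDist F] [CompleteSpace F] [CharZero F] in
private theorem pow_entry (T : Matrix I I F) (n : ℕ) (i j : I) :
    (T ^ n) i j = ∑ k ∈ Finset.range (n + 1), ((T - 1) ^ k) i j * (n.choose k : F) := by
  have h1 := (Commute.one_right (T - 1)).add_pow n
  have h2 : T - 1 + 1 = T := by abel
  rw [h2] at h1
  rw [h1, Matrix.sum_apply]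
  refine Finset.sum_congr rfl fun k _ => ?_
  rw [one_pow, mul_one, ← nsmul_eq_mul', Matrix.smul_apply, nsmul_eq_mul, mul_comm]

omit [IsUltrametricDist F] [CompleteSpace F] [CharZero F] in
private theorem desc_sum (n k : ℕ) :
    ∑ m ∈ Finset.range (k + 1), ((descPochhammer ℤ k).coeff m : F) * (n : F) ^ m =
      (k.factorial : F) * (n.choose k : F) := by
  have h1 := descPochhammer_eval_eq_descFactorial ℤ n k
  rw [Polynomial.eval_eq_sum_range' (n := k + 1) (by
    rw [descPochhammer_natDegree]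
    omega), Nat.descFactorial_eq_factorial_mul_choose] at h1
  have h2 := congrArg (fun z : ℤ => (z : F)) h1
  push_cast at h2
  exact h2

theorem rp_pow (l : ℕ) [Fact l.Prime] (hl : ‖(l : F)‖ < 1) (T : Matrix I I F)
    (hT : Sm (‖(l : F)‖ ^ 2) (T - 1)) (i j : I) : RP (fun n => (T ^ n) i j) := by
  have hp : l.Prime := Fact.out
  have hl0 : (l : F) ≠ 0 := by exact_mod_cast hp.ne_zero
  set ρ : ℝ := ‖(l : F)‖ with hρ
  have hρ0 : 0 < ρ := norm_pos_iff.2 hl0
  set q : ℝ := Real.sqrt ρ with hq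
  have hq0 : 0 ≤ q := Real.sqrt_nonneg ρ
  have hqq : q * q = ρ := Real.mul_self_sqrt hρ0.le
  have hq1 : q < 1 := by
    by_contra h
    push Not at h
    nlinarith
  set b : ℕ → F := fun k => ((T - 1) ^ k) i j with hb
  have hbn : ∀ k, ‖b k‖ ≤ (ρ ^ 2) ^ k := fun k => Sm_pow' (by positivity) hT k i j
  set u : ℕ → ℕ → F := fun k m =>
    ((descPochhammer ℤ k).coeff m : F) * (b k / (k.factorial : F)) with hu
  have hu0 : ∀ k m, k < m → u k m = 0 := by
    intro k m h
    have h1 : (descPochhammer ℤ k).coeff m = 0 := by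
      refine Polynomial.coeff_eq_zero_of_natDegree_lt ?_
      rw [descPochhammer_natDegree]
      exact h
    simp only [hu, h1, Int.cast_zero, zero_mul]
  have huρ : ∀ k m, ‖u k m‖ ≤ ρ ^ k := by
    intro k m
    have h1 : ‖(((descPochhammer ℤ k).coeff m : ℤ) : F)‖ ≤ 1 :=
      IsUltrametricDist.norm_intCast_le_one F _
    have h2 := norm_fac (F := F) l hl k
    have h3 : 0 < ‖(l : F)‖ ^ k := pow_pos hρ0 k
    have h4 : ‖b k / (k.factorial : F)‖ ≤ ρ ^ k := by
      rw [norm_div, div_le_iff₀ (lt_of_lt_of_le h3 h2)]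
      calc ‖b k‖ ≤ (ρ ^ 2) ^ k := hbn k
        _ = ρ ^ k * ρ ^ k := by ring
        _ ≤ ρ ^ k * ‖(k.factorial : F)‖ := mul_le_mul_of_nonneg_left h2 (by positivity)
    calc ‖u k m‖ = ‖(((descPochhammer ℤ k).coeff m : ℤ) : F)‖ * ‖b k / (k.factorial : F)‖ :=
          norm_mul _ _
      _ ≤ 1 * ρ ^ k := mul_le_mul h1 h4 (norm_nonneg _) zero_le_one
      _ = ρ ^ k := one_mul _
  have huq : ∀ k m, ‖u k m‖ ≤ q ^ k * q ^ m := by
    intro k m
    rcases Nat.lt_or_ge k m with h | h
    · rw [hu0 k m h, norm_zero]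
      positivity
    · calc ‖u k m‖ ≤ ρ ^ k := huρ k m
        _ = q ^ k * q ^ k := by rw [← hqq, mul_pow]
        _ ≤ q ^ k * q ^ m :=
          mul_le_mul_of_nonneg_left (pow_le_pow_of_le_one hq0 hq1.le h) (by positivity)
  have hgeo : Summable fun k : ℕ => q ^ k := summable_geometric_of_lt_one hq0 hq1
  have hcs : ∀ m, Summable fun k => u k m := fun m =>
    Summable.of_norm_bounded (hgeo.mul_right (q ^ m)) fun k => huq k m
  refine ⟨fun m => ∑' k, u k m, ?_, fun n => ?_⟩
  · have h1 : ∀ m, ‖∑' k, u k m‖ ≤ (∑' k : ℕ, q ^ k) * q ^ m := fun m =>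
      tsum_of_norm_bounded (hgeo.hasSum.mul_right (q ^ m)) fun k => huq k m
    refine squeeze_zero_norm h1 ?_
    have h2 := (tendsto_pow_atTop_nhds_zero_of_lt_one hq0 hq1).const_mul (∑' k : ℕ, q ^ k)
    rwa [mul_zero] at h2
  · have hnn : ∀ m, ‖(n : F) ^ m‖ ≤ 1 := by
      intro m
      rw [norm_pow]
      exact pow_le_one₀ (norm_nonneg _) (IsUltrametricDist.norm_natCast_le_one F n)
    have hsum : Summable fun x : ℕ × ℕ => u x.1 x.2 * (n : F) ^ x.2 := by
      refine Summable.of_norm_bounded (g := fun x : ℕ × ℕ => q ^ x.1 * q ^ x.2)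
        (hgeo.mul_of_nonneg hgeo (fun k => pow_nonneg hq0 k) fun k => pow_nonneg hq0 k) ?_
      rintro ⟨k, m⟩
      rw [norm_mul]
      calc ‖u k m‖ * ‖(n : F) ^ m‖ ≤ ‖u k m‖ * 1 :=
            mul_le_mul_of_nonneg_left (hnn m) (norm_nonneg _)
        _ = ‖u k m‖ := mul_one _
        _ ≤ q ^ k * q ^ m := huq k m
    obtain ⟨S, hS⟩ := hsum
    -- first over `m`
    have h1 : HasSum (fun k => b k * (n.choose k : F)) S := by
      refine hS.prod_fiberwise fun k => ?_
      have h2 : ∑ m ∈ Finset.range (k + 1), u k m * (n : F) ^ m = b k * (n.choose k : F) := by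
        have h3 := desc_sum (F := F) n k
        have hk0 : (k.factorial : F) ≠ 0 := by exact_mod_cast Nat.factorial_ne_zero k
        calc ∑ m ∈ Finset.range (k + 1), u k m * (n : F) ^ m =
            (b k / (k.factorial : F)) * ∑ m ∈ Finset.range (k + 1),
              ((descPochhammer ℤ k).coeff m : F) * (n : F) ^ m := by
              rw [Finset.mul_sum]
              refine Finset.sum_congr rfl fun m _ => ?_
              simp only [hu]
              ring
          _ = b k * (n.choose k : F) := by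
              rw [h3]
              field_simp
      rw [← h2]
      refine hasSum_sum_of_ne_finset_zero fun m hm => ?_
      rw [Finset.mem_range, not_lt] at hm
      show u k m * (n : F) ^ m = 0
      rw [hu0 k m (by omega), zero_mul]
    have h2 : HasSum (fun k => b k * (n.choose k : F)) ((T ^ n) i j) := by
      rw [pow_entry T n i j]
      refine hasSum_sum_of_ne_finset_zero fun k hk => ?_
      rw [Finset.mem_range, not_lt] at hk
      rw [Nat.choose_eq_zero_of_lt (by omega), Nat.cast_zero, mul_zero]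
    have h3 : S = (T ^ n) i j := h1.unique h2
    -- first over `k`
    have h4 : HasSum (fun x : ℕ × ℕ => u x.2 x.1 * (n : F) ^ x.1) S :=
      ((Equiv.prodComm ℕ ℕ).hasSum_iff (f := fun x : ℕ × ℕ => u x.1 x.2 * (n : F) ^ x.2)).2 hS
    have h5 : HasSum (fun m => (∑' k, u k m) * (n : F) ^ m) S :=
      h4.prod_fiberwise fun m => (hcs m).hasSum.mul_right ((n : F) ^ m)
    rw [h3] at h5
    exact h5

end Pool.Agent.Lib.MP_640417_ag.Zo
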