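import Pool.Agent.Lib.MP_640417_ag.Zo.Ring
import Pool.Agent.Lib.MP_640417_ag.Zo.Pow
import Pool.Agent.Lib.MP_640417_ag.Glob.Tan
import Pool.Agent.Lib.MP_640417_ag.Gn.KBas

/-!
# MP_640417_ag, Zo, module Reg (220 lines): regular functions

Used from other modules: `rp_const`, `rp_add`, `rp_mul`, `rp_smul`, `rp_sum` (`Zo/Ring.lean`), `rp_pow` (`Zo/Pow.lean`).
* constants, sums, products: clear from these and continuity.
* `isReg_entry`: `M (γ^n h) i j = ∑ k, (M γ ^ n) i k * M h k j`.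
* `isReg_mu`: choose `i, j` with `J i j ≠ 0` (`J.det ≠ 0`, `I` not empty); then `μ γ = (J i j)⁻¹ * ((M γ)ᵀ * J * M γ) i j` is a polynomial in the
  entries (`MRep.eq`).
* `isReg_mu_inv`: continuity: `μ γ ≠ 0`. `(μ (γ^n h))⁻¹ = (μ h)⁻¹ * μ ((γ⁻¹)^n * 1)` and `γ⁻¹ ∈ U`.
* `isReg_det`: `Matrix.det_apply`, finite sums and products (put the regular functions into a subring of `Γ → F`, so that
  `Subring.sum_mem`, `Subring.prod_mem` can be used).
* `isReg_coeff`: let `S` be the subring of regular functions. The matrix `B` lives over `S` (`Matrix.of fun i j => ⟨_, hB i j⟩`); its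
  characteristic polynomial has coefficients in `S`; evaluation at `γ` is a ring homomorphism `S →+* F`, and `Matrix.charpoly_map`,
  `Polynomial.coeff_map`.
* `isReg_f1`, `isReg_f2`: the entries of the matrices are polynomials in the entries of `M γ`, `μ γ`, `(μ γ)⁻¹` (`k4 g` has the entries
  `g x.1 y.1 * g x.2.1 y.2.1 * g x.2.2.1 y.2.2.1 * g x.2.2.2 y.2.2.2`, see `Glob/Defs.lean`); `Matrix.mul_apply` and finite sums.
-/

set_option autoImplicit false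

namespace Pool.Agent.Lib.MP_640417_ag.Zo

open Filter Topology Matrix Pool.Agent.Lib.MP_640417_ag.Glob Pool.Agent.Lib.MP_640417_ag.Gn

variable {F : Type} [NontriviallyNormedField F] [IsUltrametricDist F] [CompleteSpace F] [CharZero F]
  {I : Type} [Fintype I] [DecidableEq I] {Γ : Type} [Group Γ] [TopologicalSpace Γ]
  [IsTopologicalGroup Γ] (ρ : MRep Γ F I) (U : Set Γ)

private theorem isReg_congr {f g : Γ → F} (hf : IsReg ρ U f) (h : ∀ γ, f γ = g γ) :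
    IsReg ρ U g := by
  have h1 : f = g := funext h
  rw [← h1]
  exact hf

theorem isReg_const (x : F) : IsReg ρ U (fun _ => x) where
  cont := continuous_const
  seq := fun _ _ _ => tendsto_const_nhds
  rp := fun _ _ _ => rp_const x

theorem isReg_add {f g : Γ → F} (hf : IsReg ρ U f) (hg : IsReg ρ U g) :
    IsReg ρ U (fun γ => f γ + g γ) where
  cont := hf.cont.add hg.cont
  seq := fun u γ h => (hf.seq u γ h).add (hg.seq u γ h)
  rp := fun γ hγ h => rp_add (hf.rp γ hγ h) (hg.rp γ hγ h)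

theorem isReg_mul {f g : Γ → F} (hf : IsReg ρ U f) (hg : IsReg ρ U g) :
    IsReg ρ U (fun γ => f γ * g γ) where
  cont := hf.cont.mul hg.cont
  seq := fun u γ h => (hf.seq u γ h).mul (hg.seq u γ h)
  rp := fun γ hγ h => rp_mul (hf.rp γ hγ h) (hg.rp γ hγ h)

/-- the subring of regular functions -/
private def regS : Subring (Γ → F) where
  carrier := {f | IsReg ρ U f}
  mul_mem' := fun hf hg => isReg_mul ρ U hf hg
  one_mem' := isReg_const ρ U 1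
  add_mem' := fun hf hg => isReg_add ρ U hf hg
  zero_mem' := isReg_const ρ U 0
  neg_mem' := fun {f} hf => isReg_congr ρ U (isReg_mul ρ U (isReg_const ρ U (-1)) hf)
    (fun γ => by simp)

private theorem isReg_fsum {ι : Type} (s : Finset ι) (f : ι → Γ → F)
    (h : ∀ i ∈ s, IsReg ρ U (f i)) : IsReg ρ U (fun γ => ∑ i ∈ s, f i γ) := by
  have h1 : (∑ i ∈ s, f i) ∈ regS ρ U := Subring.sum_mem _ h
  exact isReg_congr ρ U (f := ∑ i ∈ s, f i) h1 (fun γ => Finset.sum_apply γ s f)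

private theorem isReg_mmul {α β δ : Type} [Fintype β] (A : Γ → Matrix α β F)
    (B : Γ → Matrix β δ F) (hA : ∀ i j, IsReg ρ U (fun γ => A γ i j))
    (hB : ∀ i j, IsReg ρ U (fun γ => B γ i j)) (i : α) (j : δ) :
    IsReg ρ U (fun γ => (A γ * B γ) i j) := by
  refine isReg_congr ρ U (isReg_fsum ρ U Finset.univ (fun k γ => A γ i k * B γ k j)
    (fun k _ => isReg_mul ρ U (hA i k) (hB k j))) (fun γ => ?_)
  rw [Matrix.mul_apply]

theorem isReg_det {κ : Type} [Fintype κ] [DecidableEq κ] (B : Γ → Matrix κ κ F)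
    (hB : ∀ i j, IsReg ρ U (fun γ => B γ i j)) : IsReg ρ U (fun γ => (B γ).det) := by
  let C : Matrix κ κ (regS ρ U) := Matrix.of fun i j => ⟨fun γ => B γ i j, hB i j⟩
  have h1 : ∀ γ, ((Pi.evalRingHom (fun _ : Γ => F) γ).comp (regS ρ U).subtype).mapMatrix C =
      B γ := by
    intro γ
    ext i j
    rfl
  refine isReg_congr ρ U (f := ((C.det : regS ρ U) : Γ → F)) C.det.2 (fun γ => ?_)
  rw [← h1 γ, ← RingHom.map_det]
  rfl

theorem isReg_coeff {κ : Type} [Fintype κ] [DecidableEq κ] (B : Γ → Matrix κ κ F)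
    (hB : ∀ i j, IsReg ρ U (fun γ => B γ i j)) (r : ℕ) :
    IsReg ρ U (fun γ => (B γ).charpoly.coeff r) := by
  let C : Matrix κ κ (regS ρ U) := Matrix.of fun i j => ⟨fun γ => B γ i j, hB i j⟩
  have h1 : ∀ γ, C.map ((Pi.evalRingHom (fun _ : Γ => F) γ).comp (regS ρ U).subtype) =
      B γ := by
    intro γ
    ext i j
    rfl
  refine isReg_congr ρ U (f := ((C.charpoly.coeff r : regS ρ U) : Γ → F))
    (C.charpoly.coeff r).2 (fun γ => ?_)
  rw [← h1 γ, Matrix.charpoly_map, Polynomial.coeff_map]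
  rfl

theorem isReg_entry (l : ℕ) [Fact l.Prime] (hl : ‖(l : F)‖ < 1)
    (hU : ∀ γ ∈ U, Sm (‖(l : F)‖ ^ 2) (ρ.M γ - 1)) (i j : I) :
    IsReg ρ U (fun γ => ρ.M γ i j) where
  cont := ρ.cont.matrix_elem i j
  seq := by
    intro u γ h
    exact ((continuous_id.matrix_elem i j).tendsto (ρ.M γ)).comp h
  rp := by
    intro γ hγ h
    have h1 : (fun n : ℕ => ρ.M (γ ^ n * h) i j) =
        fun n => ∑ k, ρ.M h k j * ((ρ.M γ) ^ n) i k := by
      funext n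
      rw [map_mul, map_pow, Matrix.mul_apply]
      exact Finset.sum_congr rfl (fun k _ => mul_comm _ _)
    rw [h1]
    exact rp_sum Finset.univ (fun k n => ρ.M h k j * ((ρ.M γ) ^ n) i k)
      (fun k _ => rp_smul _ (rp_pow l hl (ρ.M γ) (hU γ hγ) i k))

theorem isReg_mu [Nonempty I] (l : ℕ) [Fact l.Prime] (hl : ‖(l : F)‖ < 1)
    (hU : ∀ γ ∈ U, Sm (‖(l : F)‖ ^ 2) (ρ.M γ - 1)) : IsReg ρ U (fun γ => (ρ.μ γ : F)) := by
  obtain ⟨i, j, hij⟩ : ∃ i j, ρ.J i j ≠ 0 := by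
    by_contra hc
    push Not at hc
    have h0 : ρ.J = 0 := by
      ext a b
      exact hc a b
    apply ρ.det
    rw [h0]
    exact Matrix.det_zero
  have hE := isReg_entry ρ U l hl hU
  have h1 := isReg_mmul ρ U (fun γ => (ρ.M γ)ᵀ * ρ.J) (fun γ => ρ.M γ)
    (isReg_mmul ρ U (fun γ => (ρ.M γ)ᵀ) (fun _ => ρ.J) (fun a b => hE b a)
      (fun a b => isReg_const ρ U (ρ.J a b))) hE i j
  refine isReg_congr ρ U (isReg_mul ρ U (isReg_const ρ U (ρ.J i j)⁻¹) h1) (fun γ => ?_)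
  rw [ρ.eq γ, Matrix.smul_apply, smul_eq_mul]
  field_simp

theorem isReg_mu_inv [Nonempty I] (l : ℕ) [Fact l.Prime] (hl : ‖(l : F)‖ < 1)
    (hU : ∀ γ ∈ U, Sm (‖(l : F)‖ ^ 2) (ρ.M γ - 1)) (hUi : ∀ γ ∈ U, γ⁻¹ ∈ U) :
    IsReg ρ U (fun γ => (ρ.μ γ : F)⁻¹) := by
  have hm := isReg_mu ρ U l hl hU
  refine ⟨hm.cont.inv₀ (fun γ => (ρ.μ γ).ne_zero), ?_, ?_⟩
  · intro u γ h
    exact (hm.seq u γ h).inv₀ (ρ.μ γ).ne_zero
  · intro γ hγ h
    have h1 := rp_smul ((ρ.μ h : F)⁻¹) (hm.rp γ⁻¹ (hUi γ hγ) 1)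
    have h2 : (fun n : ℕ => ((ρ.μ (γ ^ n * h) : Fˣ) : F)⁻¹) =
        fun n => (ρ.μ h : F)⁻¹ * (ρ.μ (γ⁻¹ ^ n * 1) : F) := by
      funext n
      rw [mul_one, map_mul, inv_pow, map_inv, Units.val_mul, _root_.mul_inv_rev, Units.val_inv_eq_inv_val]
    rw [h2]
    exact h1

theorem isReg_f1 [Nonempty I] (l : ℕ) [Fact l.Prime] (hl : ‖(l : F)‖ < 1)
    (hU : ∀ γ ∈ U, Sm (‖(l : F)‖ ^ 2) (ρ.M γ - 1)) (hUi : ∀ γ ∈ U, γ⁻¹ ∈ U) {c : Matrix I I F}
    (kb : KB (d4 c)) (r : ℕ) :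
    IsReg ρ U (fun γ => (kb.π * ((((ρ.μ γ : F)) ^ (2 * 1))⁻¹ • k4 ((ρ.M γ) ^ 1) - 1) *
      kb.ι).charpoly.coeff r) := by
  have hE := isReg_entry ρ U l hl hU
  have hi := isReg_mu_inv ρ U l hl hU hUi
  refine isReg_coeff ρ U
    (fun γ => kb.π * ((((ρ.μ γ : F)) ^ (2 * 1))⁻¹ • k4 ((ρ.M γ) ^ 1) - 1) * kb.ι) ?_ r
  refine isReg_mmul ρ U (fun γ => kb.π * ((((ρ.μ γ : F)) ^ (2 * 1))⁻¹ • k4 ((ρ.M γ) ^ 1) - 1))
    (fun _ => kb.ι) ?_ (fun a b => isReg_const ρ U _)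
  refine isReg_mmul ρ U (fun _ => kb.π)
    (fun γ => ((((ρ.μ γ : F)) ^ (2 * 1))⁻¹ • k4 ((ρ.M γ) ^ 1) - 1))
    (fun a b => isReg_const ρ U _) ?_
  intro x y
  have h1 := isReg_add ρ U (isReg_mul ρ U (isReg_mul ρ U hi hi)
    (isReg_mul ρ U (isReg_mul ρ U (isReg_mul ρ U (hE x.1 y.1) (hE x.2.1 y.2.1))
      (hE x.2.2.1 y.2.2.1)) (hE x.2.2.2 y.2.2.2)))
    (isReg_const ρ U (-(1 : Matrix (I × I × I × I) (I × I × I × I) F) x y))
  refine isReg_congr ρ U h1 (fun γ => ?_)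
  rw [Matrix.sub_apply, Matrix.smul_apply, smul_eq_mul, pow_one, mul_one, sq, mul_inv,
    sub_eq_add_neg]
  rfl

theorem isReg_f2 [Nonempty I] (l : ℕ) [Fact l.Prime] (hl : ‖(l : F)‖ < 1)
    (hU : ∀ γ ∈ U, Sm (‖(l : F)‖ ^ 2) (ρ.M γ - 1)) {c : Matrix I I F} (k0 : KB c) :
    IsReg ρ U (fun γ => (k0.π * ((ρ.M γ) ^ 2 - (ρ.μ γ : F) • (1 : Matrix I I F)) * k0.ι).det) := by
  have hE := isReg_entry ρ U l hl hU
  have hm := isReg_mu ρ U l hl hU
  refine isReg_det ρ U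
    (fun γ => k0.π * ((ρ.M γ) ^ 2 - (ρ.μ γ : F) • (1 : Matrix I I F)) * k0.ι) ?_
  refine isReg_mmul ρ U (fun γ => k0.π * ((ρ.M γ) ^ 2 - (ρ.μ γ : F) • (1 : Matrix I I F)))
    (fun _ => k0.ι) ?_ (fun a b => isReg_const ρ U _)
  refine isReg_mmul ρ U (fun _ => k0.π)
    (fun γ => ((ρ.M γ) ^ 2 - (ρ.μ γ : F) • (1 : Matrix I I F)))
    (fun a b => isReg_const ρ U _) ?_
  intro x y
  have h1 := isReg_add ρ U (isReg_mmul ρ U (fun γ => ρ.M γ) (fun γ => ρ.M γ) hE hE x y)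
    (isReg_mul ρ U hm (isReg_const ρ U (-(1 : Matrix I I F) x y)))
  refine isReg_congr ρ U h1 (fun γ => ?_)
  rw [Matrix.sub_apply, Matrix.smul_apply, smul_eq_mul, sq, mul_neg, sub_eq_add_neg]

theorem isReg_f2m [Nonempty I] (l : ℕ) [Fact l.Prime] (hl : ‖(l : F)‖ < 1)
    (hU : ∀ γ ∈ U, Sm (‖(l : F)‖ ^ 2) (ρ.M γ - 1)) {c : Matrix I I F} (k0 : KB c) (m : ℕ) :
    IsReg ρ U (fun γ => (k0.π * ((ρ.M γ) ^ 2 - (ρ.μ γ : F) • (1 : Matrix I I F)) *
      k0.ι).charpoly.coeff m) := by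
  have hE := isReg_entry ρ U l hl hU
  have hm := isReg_mu ρ U l hl hU
  refine isReg_coeff ρ U
    (fun γ => k0.π * ((ρ.M γ) ^ 2 - (ρ.μ γ : F) • (1 : Matrix I I F)) * k0.ι) ?_ m
  refine isReg_mmul ρ U (fun γ => k0.π * ((ρ.M γ) ^ 2 - (ρ.μ γ : F) • (1 : Matrix I I F)))
    (fun _ => k0.ι) ?_ (fun a b => isReg_const ρ U _)
  refine isReg_mmul ρ U (fun _ => k0.π)
    (fun γ => ((ρ.M γ) ^ 2 - (ρ.μ γ : F) • (1 : Matrix I I F)))
    (fun a b => isReg_const ρ U _) ?_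
  intro x y
  have h1 := isReg_add ρ U (isReg_mmul ρ U (fun γ => ρ.M γ) (fun γ => ρ.M γ) hE hE x y)
    (isReg_mul ρ U hm (isReg_const ρ U (-(1 : Matrix I I F) x y)))
  refine isReg_congr ρ U h1 (fun γ => ?_)
  rw [Matrix.sub_apply, Matrix.smul_apply, smul_eq_mul, sq, mul_neg, sub_eq_add_neg]

end Pool.Agent.Lib.MP_640417_ag.Zo
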