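import Pool.Agent.Lib.MP_640417_ag.Zo.Strass
import Pool.Agent.Lib.MP_640417_ag.Zo.Reg

/-!
# MP_640417_ag, Zo, module Root (150 lines): no roots of unity close to one

Let `g = (M γ).map`, `μ'` the image of `μ γ`. Every `z_i` is an eigenvalue of `g`: choose `v_i ≠ 0` with `g v_i = z_i v_i`
(a nonzero generalized eigenspace contains an eigenvector: `Module.End.hasEigenvalue_iff`, `Module.End.maxGenEigenspace`,
`Module.End.HasUnifEigenvalue.lt`-type lemmas, or by hand: take `x ≠ 0` in it and the largest `k` with `(g - z)^k x ≠ 0`). So `I` is not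
empty. Choose `j_i` with `v_i j_i ≠ 0`, put `w = ∏ v_i j_i ≠ 0` and `β = z₁ z₂ z₃ z₄ / μ' ^ 2`. For every `n`
`β ^ n * w = ∏_i (g^n v_i) j_i * μ' ^ (- 2 n)
  = ∑_{k₁, .., k₄} ∏_i ((M γ) ^ n) j_i k_i * ((μ (γ ^ n))⁻¹) ^ 2 * ∏_i v_i k_i`,
so for every `F`-linear `φ : K → F` the sequence `a n = φ (β ^ n * w)` is `∑_k (product of entries) * φ (∏_i v_i k_i)`, and it is in `RP`
(`isReg_entry`, `isReg_mu_inv` with `h = 1` for the sequences `n ↦ (M γ ^ n) j k` and `n ↦ (μ (γ ^ n))⁻¹`; `rp_mul`, `rp_sum`, `rp_smul`).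
Since `β ^ N = 1` the sequence `a n - φ w` (`rp_add`, `rp_const`) is zero at all multiples of `N`, so it is zero (`rp_zeros`), and
`φ (β * w) = φ w`. As `φ` is arbitrary, `β * w = w` (`Module.forall_dual_apply_eq_zero_iff`), so `β = 1`.
-/

set_option autoImplicit false

namespace Pool.Agent.Lib.MP_640417_ag.Zo

open Filter Topology Matrix Pool.Agent.Lib.MP_640417_ag.Glob

variable {F : Type} [NontriviallyNormedField F] [IsUltrametricDist F] [CompleteSpace F] [CharZero F]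
  {I : Type} [Fintype I] [DecidableEq I] {Γ : Type} [Group Γ] [TopologicalSpace Γ]
  [IsTopologicalGroup Γ] (ρ : MRep Γ F I) (U : Set Γ) (K : Type) [Field K] [Algebra F K]

omit [NontriviallyNormedField F] [IsUltrametricDist F] [CompleteSpace F] [CharZero F]
  [Algebra F K] in
private theorem eigv (g : Matrix I I K) (z : K)
    (h : Module.End.maxGenEigenspace (Matrix.toLin' g) z ≠ ⊥) :
    ∃ v : I → K, v ≠ 0 ∧ ∀ n : ℕ, (g ^ n) *ᵥ v = z ^ n • v := by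
  have h1 : Module.End.HasUnifEigenvalue (Matrix.toLin' g) z ⊤ := h
  have h2 : Module.End.HasEigenvalue (Matrix.toLin' g) z :=
    Module.End.HasUnifEigenvalue.lt zero_lt_one h1
  obtain ⟨v, hv⟩ := h2.exists_hasEigenvector
  have hv1 : g *ᵥ v = z • v := by
    rw [← Matrix.toLin'_apply]
    exact hv.apply_eq_smul
  refine ⟨v, hv.2, fun n => ?_⟩
  induction n with
  | zero => rw [pow_zero, pow_zero, Matrix.one_mulVec, one_smul]
  | succ n ih =>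
    rw [pow_succ, ← Matrix.mulVec_mulVec, hv1, Matrix.mulVec_smul, ih, smul_smul, pow_succ,
      mul_comm]

omit [DecidableEq I] in
private theorem sum4 {R : Type} [CommRing R] (f₁ f₂ f₃ f₄ : I → R) :
    (∑ k, f₁ k) * ((∑ k, f₂ k) * ((∑ k, f₃ k) * (∑ k, f₄ k))) =
      ∑ x : I × I × I × I, f₁ x.1 * (f₂ x.2.1 * (f₃ x.2.2.1 * f₄ x.2.2.2)) := by
  simp only [Fintype.sum_prod_type, ← Finset.mul_sum, ← Finset.sum_mul]

theorem root_one (l : ℕ) [Fact l.Prime] (hl : ‖(l : F)‖ < 1)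
    (hU : ∀ γ ∈ U, Sm (‖(l : F)‖ ^ 2) (ρ.M γ - 1)) (hUi : ∀ γ ∈ U, γ⁻¹ ∈ U) {γ : Γ} (hγ : γ ∈ U)
    (z₁ z₂ z₃ z₄ : K)
    (h1 : Module.End.maxGenEigenspace (Matrix.toLin' ((ρ.M γ).map (algebraMap F K))) z₁ ≠ ⊥)
    (h2 : Module.End.maxGenEigenspace (Matrix.toLin' ((ρ.M γ).map (algebraMap F K))) z₂ ≠ ⊥)
    (h3 : Module.End.maxGenEigenspace (Matrix.toLin' ((ρ.M γ).map (algebraMap F K))) z₃ ≠ ⊥)
    (h4 : Module.End.maxGenEigenspace (Matrix.toLin' ((ρ.M γ).map (algebraMap F K))) z₄ ≠ ⊥)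
    {N : ℕ} (hN : 0 < N)
    (h : (z₁ * z₂ * z₃ * z₄) ^ N = (algebraMap F K (ρ.μ γ : F)) ^ (2 * N)) :
    z₁ * z₂ * z₃ * z₄ = (algebraMap F K (ρ.μ γ : F)) ^ 2 := by
  obtain ⟨v₁, hv₁, e₁⟩ := eigv K _ z₁ h1
  obtain ⟨v₂, hv₂, e₂⟩ := eigv K _ z₂ h2
  obtain ⟨v₃, hv₃, e₃⟩ := eigv K _ z₃ h3
  obtain ⟨v₄, hv₄, e₄⟩ := eigv K _ z₄ h4
  obtain ⟨j₁, hj₁⟩ := Function.ne_iff.mp hv₁
  obtain ⟨j₂, hj₂⟩ := Function.ne_iff.mp hv₂
  obtain ⟨j₃, hj₃⟩ := Function.ne_iff.mp hv₃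
  obtain ⟨j₄, hj₄⟩ := Function.ne_iff.mp hv₄
  haveI : Nonempty I := ⟨j₁⟩
  have hg : ∀ n : ℕ, ((ρ.M γ).map (algebraMap F K)) ^ n = ((ρ.M γ) ^ n).map (algebraMap F K) := by
    intro n
    exact (map_pow (algebraMap F K).mapMatrix (ρ.M γ) n).symm
  have key : ∀ (v : I → K) (z : K)
      (_ : ∀ n : ℕ, (((ρ.M γ).map (algebraMap F K)) ^ n) *ᵥ v = z ^ n • v) (j : I) (n : ℕ),
      z ^ n * v j = ∑ k, algebraMap F K (((ρ.M γ) ^ n) j k) * v k := by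
    intro v z e j n
    have := congrFun (e n) j
    rw [Pi.smul_apply, smul_eq_mul] at this
    rw [← this, hg n]
    rfl
  obtain ⟨m, hm⟩ : ∃ m : K, m = algebraMap F K (ρ.μ γ : F) := ⟨_, rfl⟩
  have hm0 : m ≠ 0 := by
    rw [hm]
    exact (map_ne_zero _).mpr (ρ.μ γ).ne_zero
  obtain ⟨w, hw⟩ : ∃ w : K, w = v₁ j₁ * (v₂ j₂ * (v₃ j₃ * v₄ j₄)) := ⟨_, rfl⟩
  have hw0 : w ≠ 0 := by
    rw [hw]
    exact mul_ne_zero hj₁ (mul_ne_zero hj₂ (mul_ne_zero hj₃ hj₄))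
  obtain ⟨β, hβ⟩ : ∃ β : K, β = z₁ * z₂ * z₃ * z₄ * (m⁻¹ * m⁻¹) := ⟨_, rfl⟩
  have hβN : β ^ N = 1 := by
    rw [hβ, mul_pow, h, ← hm, ← sq, ← pow_mul, ← mul_pow, mul_inv_cancel₀ hm0, one_pow]
  have hexp : ∀ n : ℕ, β ^ n * w = ∑ x : I × I × I × I,
      algebraMap F K (((ρ.M γ) ^ n) j₁ x.1 * (((ρ.M γ) ^ n) j₂ x.2.1 *
        (((ρ.M γ) ^ n) j₃ x.2.2.1 * ((ρ.M γ) ^ n) j₄ x.2.2.2)) *
        ((((ρ.μ γ : F)) ^ n)⁻¹ * (((ρ.μ γ : F)) ^ n)⁻¹)) *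
        (v₁ x.1 * (v₂ x.2.1 * (v₃ x.2.2.1 * v₄ x.2.2.2))) := by
    intro n
    have h5 : β ^ n * w = ((z₁ ^ n * v₁ j₁) * ((z₂ ^ n * v₂ j₂) * ((z₃ ^ n * v₃ j₃) *
        (z₄ ^ n * v₄ j₄)))) * ((m ^ n)⁻¹ * (m ^ n)⁻¹) := by
      rw [hβ, hw, mul_pow, mul_pow, mul_pow, mul_pow, mul_pow, inv_pow]
      ring
    rw [h5, key v₁ z₁ e₁ j₁ n, key v₂ z₂ e₂ j₂ n, key v₃ z₃ e₃ j₃ n, key v₄ z₄ e₄ j₄ n,
      sum4, Finset.sum_mul]
    refine Finset.sum_congr rfl (fun x _ => ?_)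
    rw [map_mul, map_mul, map_mul, map_mul, map_mul, map_inv₀, map_pow, ← hm]
    ring
  have hinv : RP (fun n : ℕ => (((ρ.μ γ : F)) ^ n)⁻¹) := by
    have h6 := (isReg_mu_inv ρ U l hl hU hUi).rp γ hγ 1
    have h7 : (fun n : ℕ => (((ρ.μ γ : F)) ^ n)⁻¹) =
        fun n : ℕ => ((ρ.μ (γ ^ n * 1) : Fˣ) : F)⁻¹ := by
      funext n
      rw [mul_one, map_pow, Units.val_pow_eq_pow_val]
    rw [h7]
    exact h6
  have hent : ∀ a b : I, RP (fun n : ℕ => ((ρ.M γ) ^ n) a b) := by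
    intro a b
    have h6 := (isReg_entry ρ U l hl hU a b).rp γ hγ 1
    have h7 : (fun n : ℕ => ((ρ.M γ) ^ n) a b) = fun n : ℕ => ρ.M (γ ^ n * 1) a b := by
      funext n
      rw [mul_one, map_pow]
    rw [h7]
    exact h6
  have hall : ∀ φ : Module.Dual F K, φ (β * w - w) = 0 := by
    intro φ
    have h8 : RP (fun n : ℕ => φ (β ^ n * w) + -φ w) := by
      refine rp_add ?_ (rp_const _)
      have h9 : (fun n : ℕ => φ (β ^ n * w)) = fun n : ℕ => ∑ x : I × I × I × I,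
          φ (v₁ x.1 * (v₂ x.2.1 * (v₃ x.2.2.1 * v₄ x.2.2.2))) *
          (((ρ.M γ) ^ n) j₁ x.1 * (((ρ.M γ) ^ n) j₂ x.2.1 *
          (((ρ.M γ) ^ n) j₃ x.2.2.1 * ((ρ.M γ) ^ n) j₄ x.2.2.2)) *
          ((((ρ.μ γ : F)) ^ n)⁻¹ * (((ρ.μ γ : F)) ^ n)⁻¹)) := by
        funext n
        rw [hexp n, map_sum]
        refine Finset.sum_congr rfl (fun x _ => ?_)
        rw [← Algebra.smul_def, map_smul, smul_eq_mul, mul_comm]
      rw [h9]
      refine rp_sum Finset.univ _ (fun x _ => rp_smul _ (rp_mul (rp_mul (hent _ _) (rp_mul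
        (hent _ _) (rp_mul (hent _ _) (hent _ _)))) (rp_mul hinv hinv)))
    have h10 : {n : ℕ | (fun n : ℕ => φ (β ^ n * w) + -φ w) n = 0}.Infinite := by
      refine Set.infinite_of_injective_forall_mem (f := fun k : ℕ => N * k) ?_ ?_
      · intro a b hab
        exact Nat.eq_of_mul_eq_mul_left hN hab
      · intro k
        show φ (β ^ (N * k) * w) + -φ w = 0
        rw [pow_mul, hβN, one_pow, one_mul, add_neg_cancel]
    have h11 := rp_zeros h8 h10 1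
    rw [map_sub, sub_eq_add_neg]
    simpa using h11
  have h12 : β * w - w = 0 := (Module.forall_dual_apply_eq_zero_iff F _).mp hall
  have h13 : β = 1 := by
    have h14 : β * w = 1 * w := by rw [one_mul]; exact sub_eq_zero.mp h12
    exact mul_right_cancel₀ hw0 h14
  rw [← hm]
  rw [hβ] at h13
  field_simp at h13
  rw [← h13]

end Pool.Agent.Lib.MP_640417_ag.Zo
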