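import Pool.Agent.Lib.MP_640417_ag.Gn.MainG
import Pool.Agent.Lib.MP_640417_ag.Zo.Dense
import Pool.Agent.Lib.MP_640417_ag.Zo.Root

/-!
# MP_640417_ag, Zo, module MainZ: almost all elements are good, if all elements are close to the identity
-/

set_option autoImplicit false

namespace Pool.Agent.Lib.MP_640417_ag.Zo

open MeasureTheory Matrix Module Pool.Agent.Lib.MP_640417_ag.Glob Pool.Agent.Lib.MP_640417_ag.Ctl
  Pool.Agent.Lib.MP_640417_ag.Ty Pool.Agent.Lib.MP_640417_ag.Gn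

variable {F : Type} [NontriviallyNormedField F] [IsUltrametricDist F] [CompleteSpace F] [CharZero F]
  {I : Type} [Fintype I] [DecidableEq I] {Γ : Type} [Group Γ] [TopologicalSpace Γ]
  [IsTopologicalGroup Γ] [CompactSpace Γ] (ρ : MRep Γ F I) (K : Type) [Field K] [Algebra F K]
  [IsAlgClosed K]

theorem exists_full (l : ℕ) [Fact l.Prime] (hl : ‖(l : F)‖ < 1) (hsemi : ρ.Semi)
    (hfull : Full0 ρ) (hL : ∀ X ∈ spJ ρ.J, (∀ b, ρ.InC b → X * b = b * X) → X ∈ Hp ρ l)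
    {X1 : Matrix I I F} (h1 : X1 ∈ spJ ρ.J) (h2 : ∀ b, ρ.InC b → X1 * b = b * X1)
    (h3 : X1.det ≠ 0) (hsm : ∀ γ, Sm (‖(l : F)‖ ^ 2) (ρ.M γ - 1)) [SecondCountableTopology F]
    [MeasurableSpace Γ] [BorelSpace Γ] (ν : Measure Γ) [ν.IsHaarMeasure] :
    ∃ O : Set Γ, IsOpen O ∧ ν Oᶜ = 0 ∧ ∀ γ ∈ O, GoodM ρ K γ := by
  rcases isEmpty_or_nonempty I with hI | hI
  · refine ⟨Set.univ, isOpen_univ, by rw [Set.compl_univ]; exact measure_empty, fun γ _ =>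
      ⟨fun c _ => Subsingleton.elim _ _, fun z κ h => absurd (Subsingleton.elim _ _) h⟩⟩
  have hl0 : (l : F) ≠ 0 := Nat.cast_ne_zero.mpr (Fact.out (p := l.Prime)).ne_zero
  obtain ⟨c, hc, hcc⟩ := exists_cc ρ hsemi
  obtain ⟨kb⟩ := exists_kb (d4 c)
  obtain ⟨k0⟩ := exists_kb c
  obtain ⟨r, hr1, hr2⟩ := low_r ρ l hl hl0 hsemi hL hc (fun z hz => (hcc z hz).1) kb K
  have hd := low_det ρ l hL hc (fun z hz => (hcc z hz).2) k0 h1 h2 h3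
  obtain ⟨A, hA, t, ht, hA1, hA2⟩ := exists_tangent ρ l hl hl0 kb k0 r hr1 hd
  obtain ⟨O, hO, ⟨γ0, hγ0⟩, hOg⟩ := near_openN ρ l hl kb k0 r A hA t ht hA1 hA2
  have hF := hOg γ0 hγ0
  have hU : ∀ γ ∈ ((⊤ : Subgroup Γ) : Set Γ), Sm (‖(l : F)‖ ^ 2) (ρ.M γ - 1) := fun γ _ => hsm γ
  have hUi : ∀ γ ∈ ((⊤ : Subgroup Γ) : Set Γ), γ⁻¹ ∈ ((⊤ : Subgroup Γ) : Set Γ) :=
    fun γ _ => Subgroup.mem_top _
  have e1 := isReg_f1 ρ _ l hl hU hUi kb r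
  have e2 := isReg_f2 ρ _ l hl hU k0
  have n1 := (null_or_zero ρ ν ⊤ e1).resolve_right
    (fun h => hF.1 1 one_pos (h γ0 (Subgroup.mem_top _)))
  have n2 := (null_or_zero ρ ν ⊤ e2).resolve_right
    (fun h => hF.2 (h γ0 (Subgroup.mem_top _)))
  refine ⟨{γ | (kb.π * ((((ρ.μ γ : F)) ^ (2 * 1))⁻¹ • k4 ((ρ.M γ) ^ 1) - 1) *
      kb.ι).charpoly.coeff r ≠ 0} ∩
      {γ | (k0.π * ((ρ.M γ) ^ 2 - (ρ.μ γ : F) • (1 : Matrix I I F)) * k0.ι).det ≠ 0},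
    (isOpen_ne_fun e1.cont continuous_const).inter (isOpen_ne_fun e2.cont continuous_const),
    ?_, ?_⟩
  · refine measure_mono_null ?_ (measure_union_null n1 n2)
    intro γ hγ
    by_contra hno
    apply hγ
    refine ⟨fun h => hno (Or.inl ⟨Subgroup.mem_top _, h⟩),
      fun h => hno (Or.inr ⟨Subgroup.mem_top _, h⟩)⟩
  · rintro γ ⟨g1, g2⟩
    refine good_gen ρ K hsemi hfull hc kb k0 r hr2 γ g1 g2 ?_
    intro N hN z₁ z₂ z₃ z₄ w1 w2 w3 w4 h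
    refine ⟨1, one_pos, ?_, g1⟩
    rw [pow_one, mul_one]
    exact root_one ρ _ K l hl hU hUi (Subgroup.mem_top γ) z₁ z₂ z₃ z₄ w1 w2 w3 w4 hN h

end Pool.Agent.Lib.MP_640417_ag.Zo
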