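import Pool.Agent.Lib.MP_640417_ag.Glob.Defs

/-!
# MP_640417_ag, Zo: sequences given by power series
-/

set_option autoImplicit false

namespace Pool.Agent.Lib.MP_640417_ag.Zo

open Filter Topology Pool.Agent.Lib.MP_640417_ag.Glob

/-- The sequence `a` is given by a power series whose coefficients tend to zero. -/
def RP {F : Type} [NontriviallyNormedField F] (a : ℕ → F) : Prop :=
  ∃ c : ℕ → F, Tendsto c atTop (𝓝 0) ∧ ∀ n : ℕ, HasSum (fun k => c k * (n : F) ^ k) (a n)

variable {F : Type} [NontriviallyNormedField F] {I : Type} [Fintype I] [DecidableEq I]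
  {Γ : Type} [Group Γ] [TopologicalSpace Γ]

/-- The function `f` is continuous, depends continuously on the matrices of `ρ`, and along the powers of an element
of `U` it is given by power series. -/
structure IsReg (ρ : MRep Γ F I) (U : Set Γ) (f : Γ → F) : Prop where
  /-- continuous -/
  cont : Continuous f
  /-- continuous as a function of the matrix -/
  seq : ∀ (u : ℕ → Γ) (γ : Γ), Tendsto (fun n => ρ.M (u n)) atTop (𝓝 (ρ.M γ)) →
    Tendsto (fun n => f (u n)) atTop (𝓝 (f γ))
  /-- power series along the powers of an element of `U` -/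
  rp : ∀ γ ∈ U, ∀ h, RP (fun n => f (γ ^ n * h))

end Pool.Agent.Lib.MP_640417_ag.Zo
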