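import Pool.Agent.Lib.MP_640417_ag.Zo.Defs

/-!
# MP_640417_ag, Zo, module Ring (120 lines): sums and products of power series

* `rp_const`: `c 0 = x`, all other coefficients zero. `rp_add`, `rp_smul`: coefficientwise. `rp_sum`, `rp_prod`: induction.
* `rp_mul`: the coefficients `e k = ∑_{i + j = k} c i * d j`. `e k → 0`: both sequences are bounded, say by `B ≥ 1`; given `ε > 0` there is
  `N` with `‖c i‖, ‖d i‖ < ε / B` for `i ≥ N`; for `k ≥ 2 N` in each summand one of `i, j` is `≥ N`, and the norm is ultrametric.
  `HasSum`: the families `c i n^i` and `d j n^j` tend to zero, their products form a summable family on `ℕ × ℕ`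
  (`NonarchimedeanAddGroup.summable_of_tendsto_cofinite_zero`, or `Summable.mul_of_nonarchimedean`), then
  `HasSum.mul_eq`, `Summable.tsum_mul_tsum_eq_tsum_sum_antidiagonal` and `n^i n^j = n^k`.
-/

set_option autoImplicit false

namespace Pool.Agent.Lib.MP_640417_ag.Zo

open Filter Topology Pool.Agent.Lib.MP_640417_ag.Glob

variable {F : Type} [NontriviallyNormedField F]

theorem rp_const (x : F) : RP (fun _ => x) := by
  refine ⟨fun k => if k = 0 then x else 0, ?_, ?_⟩
  · refine tendsto_const_nhds.congr' ?_
    filter_upwards [eventually_gt_atTop 0] with k hk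
    rw [if_neg hk.ne']
  · intro n
    have h := hasSum_ite_eq (0 : ℕ) x
    have he : (fun k : ℕ => (if k = 0 then x else 0) * (n : F) ^ k)
        = fun k : ℕ => if k = 0 then x else 0 := by
      funext k
      by_cases hk : k = 0
      · subst hk; simp
      · simp [hk]
    rw [he]
    exact h

theorem rp_add {a b : ℕ → F} (ha : RP a) (hb : RP b) : RP (fun n => a n + b n) := by
  obtain ⟨c, hc, hc'⟩ := ha
  obtain ⟨d, hd, hd'⟩ := hb
  refine ⟨fun k => c k + d k, ?_, fun n => ?_⟩
  · simpa using hc.add hd
  · have h := (hc' n).add (hd' n)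
    simpa only [add_mul] using h

/-- the Cauchy product -/
private theorem ring_cauchy [IsUltrametricDist F] {f g : ℕ → F} {a b : F}
    (hf : HasSum f a) (hg : HasSum g b) :
    HasSum (fun k => ∑ p ∈ Finset.HasAntidiagonal.antidiagonal k, f p.1 * g p.2) (a * b) := by
  have : NonarchimedeanRing F := { is_nonarchimedean := NonarchimedeanAddGroup.is_nonarchimedean }
  have h := hf.mul_of_nonarchimedean hg
  have h2 := (Finset.HasAntidiagonal.sigmaAntidiagonalEquivProd (A := ℕ)).hasSum_iff.2 h
  have h3 := h2.sigma (g := fun k => ∑ p ∈ Finset.HasAntidiagonal.antidiagonal k, f p.1 * g p.2) (fun k => by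
    have := hasSum_fintype (fun c : Finset.HasAntidiagonal.antidiagonal k => f c.1.1 * g c.1.2)
    rw [Finset.sum_coe_sort (Finset.HasAntidiagonal.antidiagonal k) (fun p => f p.1 * g p.2)] at this
    exact this)
  exact h3

theorem rp_mul [IsUltrametricDist F] [CompleteSpace F] {a b : ℕ → F} (ha : RP a) (hb : RP b) :
    RP (fun n => a n * b n) := by
  obtain ⟨c, hc, hc'⟩ := ha
  obtain ⟨d, hd, hd'⟩ := hb
  refine ⟨fun k => ∑ p ∈ Finset.HasAntidiagonal.antidiagonal k, c p.1 * d p.2, ?_, fun n => ?_⟩
  · have hcs : Summable c := NonarchimedeanAddGroup.summable_of_tendsto_cofinite_zero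
      (by rw [Nat.cofinite_eq_atTop]; exact hc)
    have hds : Summable d := NonarchimedeanAddGroup.summable_of_tendsto_cofinite_zero
      (by rw [Nat.cofinite_eq_atTop]; exact hd)
    exact (ring_cauchy hcs.hasSum hds.hasSum).summable.tendsto_atTop_zero
  · have h := ring_cauchy (hc' n) (hd' n)
    have he : (fun k : ℕ => ∑ p ∈ Finset.HasAntidiagonal.antidiagonal k,
          (c p.1 * (n : F) ^ p.1) * (d p.2 * (n : F) ^ p.2))
        = fun k : ℕ => (∑ p ∈ Finset.HasAntidiagonal.antidiagonal k, c p.1 * d p.2) * (n : F) ^ k := by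
      funext k
      rw [Finset.sum_mul]
      refine Finset.sum_congr rfl fun p hp => ?_
      rw [← Finset.HasAntidiagonal.mem_antidiagonal.1 hp, pow_add]
      ring
    rw [← he]
    exact h

theorem rp_smul (x : F) {a : ℕ → F} (ha : RP a) : RP (fun n => x * a n) := by
  obtain ⟨c, hc, hc'⟩ := ha
  refine ⟨fun k => x * c k, ?_, fun n => ?_⟩
  · simpa using hc.const_mul x
  · have h := (hc' n).mul_left x
    simpa only [mul_assoc] using h

theorem rp_sum {ι : Type} (s : Finset ι) (a : ι → ℕ → F) (h : ∀ i ∈ s, RP (a i)) :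
    RP (fun n => ∑ i ∈ s, a i n) := by
  classical
  induction s using Finset.induction_on with
  | empty => simpa using rp_const (0 : F)
  | insert i s his ih =>
    have h1 := rp_add (h i (Finset.mem_insert_self i s))
      (ih (fun j hj => h j (Finset.mem_insert_of_mem hj)))
    simpa only [Finset.sum_insert his] using h1

end Pool.Agent.Lib.MP_640417_ag.Zo
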