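import Pool.Agent.Lib.MP_640417_ag.Zo.Defs

/-!
# MP_640417_ag, Zo, module Strass (150 lines): zeros of power series (Strassmann)

`strass_aux`, by induction on `N`. Let `c k → 0`, `‖c k‖ ≤ ‖c N‖` for all `k` and `‖c k‖ < ‖c N‖` for `k > N` (so `c N ≠ 0`). Then
`Z = {n : ℕ | HasSum (fun k => c k * n ^ k) 0}` is finite.
* `N = 0`: no zeros. `‖n‖ ≤ 1` for natural numbers (`norm_nat_le`, `Glob/Norm.lean`). `∑_{k ≥ 1} c k n^k = - c 0`; but every
  partial sum of the terms with `k ≥ 1` has norm at most `s = max_{k ≥ 1} ‖c k‖ < ‖c 0‖` (the maximum exists as `c k → 0`: all but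
  finitely many have norm `< ‖c 0‖ / 2`, say), and so has the limit (`IsUltrametricDist`: `norm_sum_le_of_forall_le` and closedness).
* `N + 1`: if `Z` is empty, done. Let `m ∈ Z`. Put `d j = ∑' k, c (j + 1 + k) * m ^ k` (summable: the terms tend to zero,
  `NonarchimedeanAddGroup.summable_of_tendsto_cofinite_zero`). Then `d j = c (j + 1) + m * d (j + 1)` and
  `0 = c 0 + m * d 0`. `‖d j‖ ≤ sup_{k > j} ‖c k‖`, so `d j → 0`, `‖d j‖ ≤ ‖c (N + 1)‖`, `‖d N‖ = ‖c (N + 1)‖` (the other
  terms have norm `≤` the maximum of `‖c k‖`, `k > N + 1`, which is smaller), and `‖d j‖ < ‖c (N + 1)‖` for `j > N`. If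
  `n ∈ Z`, `n ≠ m`, then with `D = ∑' j, d j n^j`: `(n - m) * D = ∑ (d j n^(j+1) - m d j n^j)
  = ∑ d j n^(j+1) - ∑_{j ≥ 1} (d (j-1) - c j) n^j + c 0 = ∑_{j ≥ 0} c j n^j = 0`, so `D = 0` (`F` has characteristic zero), and
  `n` is in the zero set of `d`, which is finite by induction. So `Z ⊆ {m} ∪ (zero set of d)`.
`rp_zeros`: if `c` is not zero there is `N` with these properties (the maximum of `‖c k‖` is attained, and at only finitely many
`k`; take the last one), and the zero set of `a` is finite. If `c = 0` then `a = 0`.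
-/

set_option autoImplicit false

namespace Pool.Agent.Lib.MP_640417_ag.Zo

open Filter Topology Pool.Agent.Lib.MP_640417_ag.Glob

variable {F : Type} [NontriviallyNormedField F] [IsUltrametricDist F] [CompleteSpace F] [CharZero F]

omit [CompleteSpace F] [CharZero F] in
private theorem sum_le {f : ℕ → F} {a : F} (h : HasSum f a) {r : ℝ} (hr : 0 ≤ r)
    (hf : ∀ k, ‖f k‖ ≤ r) : ‖a‖ ≤ r := by
  have h1 : Tendsto (fun s : Finset ℕ => ‖∑ k ∈ s, f k‖) atTop (𝓝 ‖a‖) := (Filter.Tendsto.norm h)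
  exact le_of_tendsto' h1 fun s =>
    IsUltrametricDist.norm_sum_le_of_forall_le_of_nonneg hr fun k _ => hf k

omit [CompleteSpace F] [CharZero F] in
private theorem term_le (c : ℕ → F) (n k : ℕ) (x : F) (hx : ‖x‖ ≤ ‖c k‖) :
    ‖x * (n : F) ^ k‖ ≤ ‖c k‖ := by
  rw [norm_mul, norm_pow]
  have h1 : ‖(n : F)‖ ^ k ≤ 1 :=
    pow_le_one₀ (norm_nonneg _) (IsUltrametricDist.norm_natCast_le_one F n)
  calc ‖x‖ * ‖(n : F)‖ ^ k ≤ ‖c k‖ * 1 :=
        mul_le_mul hx h1 (pow_nonneg (norm_nonneg _) _) (norm_nonneg _)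
    _ = ‖c k‖ := mul_one _

omit [CompleteSpace F] [CharZero F] in
private theorem term_le' (x : F) (n k : ℕ) : ‖x * (n : F) ^ k‖ ≤ ‖x‖ :=
  term_le (fun _ => x) n k x le_rfl

omit [CharZero F] in
private theorem summ {c : ℕ → F} (hc : Tendsto c atTop (𝓝 0)) (n : ℕ) :
    Summable (fun k => c k * (n : F) ^ k) := by
  refine NonarchimedeanAddGroup.summable_of_tendsto_cofinite_zero ?_
  rw [Nat.cofinite_eq_atTop]
  exact squeeze_zero_norm (fun k => term_le' (c k) n k) (tendsto_zero_iff_norm_tendsto_zero.1 hc)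

omit [IsUltrametricDist F] [CompleteSpace F] [CharZero F] in
private theorem tail_sup {c : ℕ → F} (hc : Tendsto c atTop (𝓝 0)) (N : ℕ) {r : ℝ} (hr : 0 < r)
    (h : ∀ k, N < k → ‖c k‖ < r) : ∃ s, 0 ≤ s ∧ s < r ∧ ∀ k, N < k → ‖c k‖ ≤ s := by
  have h1 : ∀ᶠ k in atTop, ‖c k‖ < r / 2 := by
    have := (tendsto_zero_iff_norm_tendsto_zero.1 hc)
    exact this.eventually_lt_const (by positivity)
  obtain ⟨M, hM⟩ := eventually_atTop.1 h1
  have key : ∀ M' : ℕ, ∃ s, r / 2 ≤ s ∧ s < r ∧ ∀ k, N < k → k < M' → ‖c k‖ ≤ s := by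
    intro M'
    induction M' with
    | zero => exact ⟨r / 2, le_rfl, by linarith, fun k _ hk => absurd hk (Nat.not_lt_zero _)⟩
    | succ M' ih =>
      obtain ⟨s, hs1, hs2, hs3⟩ := ih
      by_cases hN : N < M'
      · refine ⟨max s ‖c M'‖, hs1.trans (le_max_left _ _), max_lt hs2 (h M' hN), ?_⟩
        intro k hk hk'
        rcases Nat.lt_succ_iff_lt_or_eq.1 hk' with h' | h'
        · exact (hs3 k hk h').trans (le_max_left _ _)
        · rw [h']
          exact le_max_right _ _
      · refine ⟨s, hs1, hs2, ?_⟩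
        intro k hk hk'
        exact hs3 k hk (by omega)
  obtain ⟨s, hs1, hs2, hs3⟩ := key M
  refine ⟨s, by linarith, hs2, ?_⟩
  intro k hk
  by_cases hk' : k < M
  · exact hs3 k hk hk'
  · exact (hM k (by omega)).le.trans hs1

theorem strass_aux (N : ℕ) : ∀ c : ℕ → F, Tendsto c atTop (𝓝 0) → (∀ k, ‖c k‖ ≤ ‖c N‖) →
    (∀ k, N < k → ‖c k‖ < ‖c N‖) → {n : ℕ | HasSum (fun k => c k * (n : F) ^ k) 0}.Finite := by
  induction N with
  | zero =>
    intro c hc _ h2
    have hpos : 0 < ‖c 0‖ := (norm_nonneg (c 1)).trans_lt (h2 1 Nat.one_pos)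
    obtain ⟨s, hs0, hs1, hs2⟩ := tail_sup hc 0 hpos h2
    convert Set.finite_empty
    ext n
    simp only [Set.mem_setOf_eq, Set.mem_empty_iff_false, iff_false]
    intro hn
    have h3 := (hasSum_nat_add_iff' 1).mpr hn
    simp only [Finset.range_one, Finset.sum_singleton, pow_zero, mul_one, zero_sub] at h3
    have h4 := sum_le h3 hs0 fun k =>
      (term_le' (c (k + 1)) n (k + 1)).trans (hs2 (k + 1) (Nat.succ_pos k))
    rw [norm_neg] at h4
    linarith
  | succ N ih =>
    intro c hc h1 h2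
    have hpos : 0 < ‖c (N + 1)‖ := (norm_nonneg (c (N + 2))).trans_lt (h2 (N + 2) (by omega))
    obtain ⟨s, hs0, hs1, hs2⟩ := tail_sup hc (N + 1) hpos h2
    by_cases hZ : {n : ℕ | HasSum (fun k => c k * (n : F) ^ k) 0} = ∅
    · rw [hZ]
      exact Set.finite_empty
    obtain ⟨m, hm⟩ := Set.nonempty_iff_ne_empty.2 hZ
    have hm' : HasSum (fun k => c k * (m : F) ^ k) 0 := hm
    have hshift : ∀ j, Tendsto (fun k => c (k + (j + 1))) atTop (𝓝 0) := fun j =>
      (tendsto_add_atTop_iff_nat (j + 1)).2 hc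
    obtain ⟨d, hd⟩ : ∃ d : ℕ → F, ∀ j, d j = ∑' k, c (k + (j + 1)) * (m : F) ^ k := ⟨_, fun _ => rfl⟩
    have hdsum : ∀ j, HasSum (fun k => c (k + (j + 1)) * (m : F) ^ k) (d j) := by
      intro j
      rw [hd j]
      exact (summ (hshift j) m).hasSum
    have hrec : ∀ j, d j = c (j + 1) + (m : F) * d (j + 1) := by
      intro j
      have h3 := (hasSum_nat_add_iff' 1).mpr (hdsum j)
      simp only [Finset.range_one, Finset.sum_singleton, pow_zero, mul_one, zero_add] at h3
      have h4 := (hdsum (j + 1)).mul_left (m : F)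
      have h5 : (fun k => c (k + 1 + (j + 1)) * (m : F) ^ (k + 1)) =
          fun k => (m : F) * (c (k + (j + 1 + 1)) * (m : F) ^ k) := by
        funext k
        have h6 : k + 1 + (j + 1) = k + (j + 1 + 1) := by omega
        rw [h6, pow_succ]
        ring
      rw [h5] at h3
      have h6 := h3.unique h4
      linear_combination h6
    have hrec0 : 0 = c 0 + (m : F) * d 0 := by
      have h3 := (hasSum_nat_add_iff' 1).mpr hm'
      simp only [Finset.range_one, Finset.sum_singleton, pow_zero, mul_one, zero_sub] at h3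
      have h4 := (hdsum 0).mul_left (m : F)
      have h5 : (fun k => c (k + 1) * (m : F) ^ (k + 1)) =
          fun k => (m : F) * (c (k + (0 + 1)) * (m : F) ^ k) := by
        funext k
        rw [zero_add, pow_succ]
        ring
      rw [h5] at h3
      have h6 := h3.unique h4
      linear_combination h6
    have hdle : ∀ (j : ℕ) (r : ℝ), 0 ≤ r → (∀ k, j < k → ‖c k‖ ≤ r) → ‖d j‖ ≤ r := by
      intro j r hr h
      exact sum_le (hdsum j) hr fun k => (term_le' _ m k).trans (h _ (by omega))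
    have hd0 : Tendsto d atTop (𝓝 0) := by
      rw [tendsto_zero_iff_norm_tendsto_zero, Metric.tendsto_atTop]
      intro ε hε
      have h3 : ∀ᶠ k in atTop, ‖c k‖ < ε / 2 :=
        (tendsto_zero_iff_norm_tendsto_zero.1 hc).eventually_lt_const (by positivity)
      obtain ⟨M, hM⟩ := eventually_atTop.1 h3
      refine ⟨M, fun j hj => ?_⟩
      have h4 := hdle j (ε / 2) (by positivity) fun k hk => (hM k (by omega)).le
      rw [dist_zero_right, norm_norm]
      linarith
    have hlt : ∀ j, N < j → ‖d j‖ ≤ s := fun j hj => hdle j s hs0 fun k hk => hs2 k (by omega)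
    have hall : ∀ j, ‖d j‖ ≤ ‖c (N + 1)‖ := fun j => hdle j _ (norm_nonneg _) fun k _ => h1 k
    have hN : ‖d N‖ = ‖c (N + 1)‖ := by
      refine le_antisymm (hall N) ?_
      have h3 : c (N + 1) = d N - (m : F) * d (N + 1) := by
        rw [hrec N]
        ring
      have h4 : ‖(m : F) * d (N + 1)‖ ≤ s := by
        rw [norm_mul]
        calc ‖(m : F)‖ * ‖d (N + 1)‖ ≤ 1 * s :=
              mul_le_mul (IsUltrametricDist.norm_natCast_le_one F m) (hlt _ (by omega))
                (norm_nonneg _) zero_le_one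
          _ = s := one_mul s
      have h5 : ‖c (N + 1)‖ ≤ max ‖d N‖ ‖(m : F) * d (N + 1)‖ := by
        conv_lhs => rw [h3, sub_eq_add_neg]
        have h6 := IsUltrametricDist.norm_add_le_max (d N) (-((m : F) * d (N + 1)))
        rwa [norm_neg] at h6
      rcases le_max_iff.1 h5 with h6 | h6
      · exact h6
      · linarith
    have hfin := ih d hd0 (fun k => by rw [hN]; exact hall k)
      (fun k hk => by rw [hN]; exact (hlt k hk).trans_lt hs1)
    refine (hfin.union (Set.finite_singleton m)).subset ?_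
    intro n hn
    have hn' : HasSum (fun k => c k * (n : F) ^ k) 0 := hn
    by_cases hnm : n = m
    · exact Or.inr hnm
    refine Or.inl ?_
    obtain ⟨D, hD⟩ := summ hd0 n
    have e1 := hD.mul_left (n : F)
    have e2 := (hasSum_nat_add_iff' 1).mpr hD
    simp only [Finset.range_one, Finset.sum_singleton, pow_zero, mul_one] at e2
    have e3 := e1.sub (e2.mul_left (m : F))
    have e4 := (hasSum_nat_add_iff' 1).mpr hn'
    simp only [Finset.range_one, Finset.sum_singleton, pow_zero, mul_one, zero_sub] at e4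
    have e5 : (fun k => (n : F) * (d k * (n : F) ^ k) - (m : F) * (d (k + 1) * (n : F) ^ (k + 1)))
        = fun k => c (k + 1) * (n : F) ^ (k + 1) := by
      funext k
      rw [hrec k, pow_succ]
      ring
    rw [e5] at e3
    have e6 := e3.unique e4
    have e7 : ((n : F) - m) * D = 0 := by linear_combination e6 + hrec0
    have e8 : (n : F) - m ≠ 0 := by
      rw [sub_ne_zero]
      exact fun h => hnm (Nat.cast_injective h)
    have e9 : D = 0 := (mul_eq_zero.1 e7).resolve_left e8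
    rw [e9] at hD
    exact hD

/-- a sequence given by a power series with infinitely many zeros is zero -/
theorem rp_zeros {a : ℕ → F} (h : RP a) (hinf : {n : ℕ | a n = 0}.Infinite) (n : ℕ) :
    a n = 0 := by
  classical
  obtain ⟨c, hc, ha⟩ := h
  by_cases hz : ∀ k, c k = 0
  · have h1 := ha n
    have h2 : (fun k => c k * (n : F) ^ k) = fun _ => 0 := by
      funext k
      rw [hz k, zero_mul]
    rw [h2] at h1
    exact h1.unique hasSum_zero
  exfalso
  push Not at hz
  obtain ⟨k₀, hk₀⟩ := hz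
  have hpos : 0 < ‖c k₀‖ := norm_pos_iff.2 hk₀
  have hS : {k : ℕ | ‖c k₀‖ ≤ ‖c k‖}.Finite := by
    have h3 : ∀ᶠ k in atTop, ‖c k‖ < ‖c k₀‖ :=
      (tendsto_zero_iff_norm_tendsto_zero.1 hc).eventually_lt_const hpos
    obtain ⟨M, hM⟩ := eventually_atTop.1 h3
    refine (Set.finite_Iio M).subset fun k hk => ?_
    rw [Set.mem_Iio]
    by_contra hk'
    have h4 := hM k (by omega)
    have h5 : ‖c k₀‖ ≤ ‖c k‖ := hk
    linarith
  obtain ⟨k₁, hk₁, hmax⟩ := hS.toFinset.exists_max_image (fun k => ‖c k‖)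
    ⟨k₀, by rw [Set.Finite.mem_toFinset]; exact (le_refl ‖c k₀‖)⟩
  rw [Set.Finite.mem_toFinset] at hk₁
  have hk₁' : ‖c k₀‖ ≤ ‖c k₁‖ := hk₁
  have hall : ∀ k, ‖c k‖ ≤ ‖c k₁‖ := by
    intro k
    by_cases hk : ‖c k₀‖ ≤ ‖c k‖
    · exact hmax k (by rw [Set.Finite.mem_toFinset]; exact hk)
    · exact (not_le.1 hk).le.trans hk₁'
  obtain ⟨N, hN, hNmax⟩ := (hS.toFinset.filter fun k => ‖c k‖ = ‖c k₁‖).exists_max_image id
    ⟨k₁, by rw [Finset.mem_filter, Set.Finite.mem_toFinset]; exact ⟨hk₁, rfl⟩⟩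
  rw [Finset.mem_filter] at hN
  have hfin := strass_aux N c hc (fun k => by rw [hN.2]; exact hall k) (by
    intro k hk
    rw [hN.2]
    refine lt_of_le_of_ne (hall k) fun h3 => ?_
    have h4 := hNmax k (by
      rw [Finset.mem_filter, Set.Finite.mem_toFinset]
      refine ⟨?_, h3⟩
      have h5 : ‖c k₀‖ ≤ ‖c k‖ := by rw [h3]; exact hk₁'
      exact h5)
    simp only [id] at h4
    omega)
  refine hinf (hfin.subset fun n hn => ?_)
  have h3 := ha n
  have h4 : a n = 0 := hn
  rw [h4] at h3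
  exact h3

end Pool.Agent.Lib.MP_640417_ag.Zo
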